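import Pool.Agent.Q151.Dy.Unif

/-!
# Exponent sets with gaps
-/

set_option autoImplicit false

open Set Filter Topology

namespace Pool.Agent.Q151.Dy

open Pool.Agent.Q151.Mackey

/-- gaps tend to infinity -/
def Gap (B : Set ℕ) : Prop := ∀ M : ℕ, ∃ E : ℕ, ∀ a ∈ B, ∀ a' ∈ B, a < a' → E ≤ a → a + M ≤ a'

/-- finite unions of sets with gaps tending to infinity -/
inductive K : Set ℕ → Prop
  | empty : K ∅
  | union {A B : Set ℕ} : K A → Gap B → K (A ∪ B)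

lemma K.union' {A B : Set ℕ} (hA : K A) (hB : K B) : K (A ∪ B) := by
  induction hB with
  | empty => simpa using hA
  | union _ h2 ih =>
    rw [← Set.union_assoc]
    exact K.union ih h2

lemma K.of_gap {B : Set ℕ} (h : Gap B) : K B := by
  have := K.union K.empty h
  simpa using this

/-- `e` is at distance at least `L` below the elements of `A` above it -/
def Good (A : Set ℕ) (L e : ℕ) : Prop := ∀ a ∈ A, e < a → e + L ≤ a

/-- good exponents are syndetic -/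
def Rich (A : Set ℕ) : Prop :=
  ∀ L : ℕ, ∃ M E : ℕ, ∀ e, E ≤ e → ∃ e', e ≤ e' ∧ e' ≤ e + M ∧ Good A L e'

lemma K.rich {A : Set ℕ} (h : K A) : Rich A := by
  induction h with
  | empty =>
    intro L
    exact ⟨0, 0, fun e _ => ⟨e, le_rfl, by omega, fun a ha => absurd ha (by simp)⟩⟩
  | @union A B _ hB ih =>
    intro L
    obtain ⟨M, E, hE⟩ := ih (2 * L)
    obtain ⟨E', hE'⟩ := hB (2 * L)
    refine ⟨M + L, max E E', fun e he => ?_⟩
    obtain ⟨e', h1, h2, h3⟩ := hE e (le_trans (le_max_left _ _) he)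
    have he' : E' ≤ e := le_trans (le_max_right _ _) he
    by_cases hg : Good B L e'
    · refine ⟨e', h1, by omega, ?_⟩
      rintro a (ha | ha) hlt
      · have := h3 a ha hlt; omega
      · exact hg a ha hlt
    · unfold Good at hg
      push Not at hg
      obtain ⟨b, hb, hb1, hb2⟩ := hg
      refine ⟨e' + L, by omega, by omega, ?_⟩
      rintro a (ha | ha) hlt
      · have := h3 a ha (by omega); omega
      · have := hE' b hb a ha (by omega) (by omega); omega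

/-! ## dyadic points -/

/-- the point `2 ^ (-a)` of the circle -/
noncomputable def D (a : ℕ) : T := ((1 / 2 ^ a : ℝ) : T)

/-- the number `2 ^ (e - a)` if `e < a` and `0` otherwise -/
noncomputable def w (e a : ℕ) : ℝ := if e < a then 2 ^ e * (1 / 2) ^ a else 0

lemma w_nonneg (e a : ℕ) : 0 ≤ w e a := by
  unfold w; split_ifs <;> positivity

lemma smul_D (e a : ℕ) : ((2 : ℤ) ^ e) • D a = (w e a : T) := by
  unfold D w
  rw [zsmul_coe]
  split_ifs with h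
  · push_cast
    rw [one_div, one_div, inv_pow]
  · push Not at h
    obtain ⟨c, rfl⟩ := Nat.exists_eq_add_of_le h
    rw [AddCircle.coe_zero, AddCircle.coe_eq_zero_iff]
    refine ⟨(2 : ℤ) ^ c, ?_⟩
    push_cast
    rw [pow_add]
    field_simp
    simp

lemma D_le {a c : ℕ} (h : a ≤ c) : D a = ((2 : ℤ) ^ (c - a)) • D c := by
  unfold D
  rw [zsmul_coe]
  congr 1
  push_cast
  obtain ⟨k, rfl⟩ := Nat.exists_eq_add_of_le h
  rw [Nat.add_sub_cancel_left, pow_add]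
  field_simp

lemma geo1 {G : Finset ℕ} {q : ℕ} (h : ∀ a ∈ G, q ≤ a) :
    ∑ a ∈ G, ((1 : ℝ) / 2) ^ a ≤ 2 * (1 / 2) ^ q := by
  have h1 : ∀ N, ∑ a ∈ Finset.Ico q (q + N), ((1 : ℝ) / 2) ^ a
      = 2 * (1 / 2) ^ q - 2 * (1 / 2) ^ (q + N) := by
    intro N
    induction N with
    | zero => simp
    | succ N ih =>
      rw [← Nat.add_assoc, Finset.sum_Ico_succ_top (by omega), ih, pow_succ]
      ring
  have h2 : G ⊆ Finset.Ico q (q + (G.sup id + 1)) := by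
    intro a ha
    have h3 : a ≤ G.sup id := Finset.le_sup (f := id) ha
    rw [Finset.mem_Ico]
    have := h a ha
    omega
  calc ∑ a ∈ G, ((1 : ℝ) / 2) ^ a ≤ ∑ a ∈ Finset.Ico q (q + (G.sup id + 1)), ((1 : ℝ) / 2) ^ a :=
        Finset.sum_le_sum_of_subset_of_nonneg h2 (fun i _ _ => by positivity)
    _ ≤ _ := by
        rw [h1]
        have : (0 : ℝ) < (1 / 2) ^ (q + (G.sup id + 1)) := by positivity
        linarith

lemma geo2 {F : Finset ℕ} {q : ℕ} (h : ∀ e ∈ F, e ≤ q) :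
    ∑ e ∈ F, (2 : ℝ) ^ e ≤ 2 * 2 ^ q := by
  have h2 : F ⊆ Finset.range (q + 1) := by
    intro a ha
    rw [Finset.mem_range]
    have := h a ha
    omega
  have h1 : ∀ N, ∑ e ∈ Finset.range N, (2 : ℝ) ^ e = 2 ^ N - 1 := by
    intro N
    induction N with
    | zero => simp
    | succ N ih => rw [Finset.sum_range_succ, ih, pow_succ]; ring
  calc ∑ e ∈ F, (2 : ℝ) ^ e ≤ ∑ e ∈ Finset.range (q + 1), (2 : ℝ) ^ e :=
        Finset.sum_le_sum_of_subset_of_nonneg h2 (fun i _ _ => by positivity)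
    _ ≤ _ := by
        rw [h1, pow_succ]
        linarith

/-- sum over the exponents `e` -/
lemma sum_w_e {F : Finset ℕ} {a L : ℕ} (h : ∀ e ∈ F, e < a → e + L ≤ a) :
    ∑ e ∈ F, w e a ≤ 2 * (1 / 2) ^ L := by
  classical
  have h0 : ∑ e ∈ F, w e a = ∑ e ∈ F.filter (fun e => e < a), (2 : ℝ) ^ e * (1 / 2) ^ a := by
    rw [Finset.sum_filter]
    rfl
  rw [h0, ← Finset.sum_mul]
  by_cases hL : L ≤ a
  · have h1 : ∑ e ∈ F.filter (fun e => e < a), (2 : ℝ) ^ e ≤ 2 * 2 ^ (a - L) := by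
      apply geo2
      intro e he
      rw [Finset.mem_filter] at he
      have := h e he.1 he.2
      omega
    obtain ⟨k, rfl⟩ := Nat.exists_eq_add_of_le hL
    rw [Nat.add_sub_cancel_left] at h1
    calc (∑ e ∈ F.filter (fun e => e < L + k), (2 : ℝ) ^ e) * (1 / 2) ^ (L + k)
        ≤ (2 * 2 ^ k) * (1 / 2) ^ (L + k) := by gcongr
      _ = 2 * (1 / 2) ^ L := by
        rw [pow_add]
        have : (2 : ℝ) ^ k * (1 / 2) ^ k = 1 := by
          rw [← mul_pow]; norm_num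
        linear_combination 2 * (1 / 2) ^ L * this
  · have : F.filter (fun e => e < a) = ∅ := by
      rw [Finset.filter_eq_empty_iff]
      intro e he hlt
      have := h e he hlt
      omega
    rw [this]
    simp

/-- sum over the positions `a` -/
lemma sum_w_a {G : Finset ℕ} {e L : ℕ} (h : ∀ a ∈ G, e < a → e + L ≤ a) :
    ∑ a ∈ G, w e a ≤ 2 * (1 / 2) ^ L := by
  classical
  have h0 : ∑ a ∈ G, w e a = ∑ a ∈ G.filter (fun a => e < a), (2 : ℝ) ^ e * (1 / 2) ^ a := by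
    rw [Finset.sum_filter]
    rfl
  rw [h0, ← Finset.mul_sum]
  have h1 : ∑ a ∈ G.filter (fun a => e < a), ((1 : ℝ) / 2) ^ a ≤ 2 * (1 / 2) ^ (e + L) := by
    apply geo1
    intro a ha
    rw [Finset.mem_filter] at ha
    exact h a ha.1 ha.2
  calc (2 : ℝ) ^ e * ∑ a ∈ G.filter (fun a => e < a), ((1 : ℝ) / 2) ^ a
      ≤ 2 ^ e * (2 * (1 / 2) ^ (e + L)) := by gcongr
    _ = 2 * (1 / 2) ^ L := by
      rw [pow_add]
      have : (2 : ℝ) ^ e * (1 / 2) ^ e = 1 := by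
        rw [← mul_pow]; norm_num
      linear_combination 2 * (1 / 2) ^ L * this

/-- signed sums of powers of two -/
lemma norm_signed_le {F : Finset ℕ} {ε : ℕ → ℤ} (hε : ∀ e ∈ F, |ε e| ≤ 1) (x : T) :
    ‖(∑ e ∈ F, ε e * 2 ^ e) • x‖ ≤ ∑ e ∈ F, ‖((2 : ℤ) ^ e) • x‖ := by
  rw [Finset.sum_smul]
  refine (norm_sum_le _ _).trans (Finset.sum_le_sum fun e he => ?_)
  rw [mul_smul]
  refine (norm_zs _ _).trans ?_
  have h1 : |(ε e : ℝ)| ≤ 1 := by exact_mod_cast hε e he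
  have h2 : (0 : ℝ) ≤ ‖((2 : ℤ) ^ e) • x‖ := norm_nonneg _
  nlinarith

lemma norm_signed_D {F : Finset ℕ} {ε : ℕ → ℤ} (hε : ∀ e ∈ F, |ε e| ≤ 1) {a L : ℕ}
    (h : ∀ e ∈ F, e < a → e + L ≤ a) :
    ‖(∑ e ∈ F, ε e * 2 ^ e) • D a‖ ≤ 2 * (1 / 2) ^ L := by
  refine (norm_signed_le hε _).trans (le_trans (Finset.sum_le_sum fun e _ => ?_) (sum_w_e h))
  rw [smul_D]
  refine (norm_coe_le _).trans ?_
  rw [abs_of_nonneg (w_nonneg _ _)]

/-! ## summability -/

lemma sum_le_quarter {ι : Type*} [DecidableEq ι] {v : ι → ℝ} (F : Finset ι)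
    (h0 : ∀ i ∈ F, 0 ≤ v i) (h1 : ∀ i ∈ F, v i ≤ 1 / 4)
    (h2 : ∀ G : Finset ι, G ⊆ F → ‖((∑ i ∈ G, v i : ℝ) : T)‖ ≤ 1 / 4) :
    ∑ i ∈ F, v i ≤ 1 / 4 := by
  induction F using Finset.induction_on with
  | empty => norm_num
  | @insert a F ha ih =>
    have h3 := ih (fun i hi => h0 i (Finset.mem_insert_of_mem hi))
      (fun i hi => h1 i (Finset.mem_insert_of_mem hi))
      (fun G hG => h2 G (hG.trans (Finset.subset_insert _ _)))
    have h4 := h2 (insert a F) Finset.Subset.rfl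
    have h5 : ∑ i ∈ insert a F, v i = v a + ∑ i ∈ F, v i := Finset.sum_insert ha
    have h6 : 0 ≤ ∑ i ∈ insert a F, v i := Finset.sum_nonneg h0
    have h7 := h1 a (Finset.mem_insert_self _ _)
    rw [norm_coe_eq, abs_of_nonneg h6] at h4
    · exact h4
    · rw [abs_of_nonneg h6, h5]; linarith

lemma exists_sign (x : T) : ∃ ε : ℤ, |ε| ≤ 1 ∧ ε • x = ((‖x‖ : ℝ) : T) := by
  obtain ⟨u, hu, hn⟩ := exists_rep x
  rcases le_or_gt 0 u with h | h
  · refine ⟨1, by simp, ?_⟩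
    rw [one_smul, ← hn, abs_of_nonneg h, hu]
  · refine ⟨-1, by simp, ?_⟩
    rw [neg_smul, one_smul, ← hn, abs_of_neg h, AddCircle.coe_neg, hu]

/-- the key summability lemma -/
lemma summ {V : Set ℤ} {x : T} (hx : x ∈ Pol V) {I : Set ℕ}
    (hI : ∀ (F : Finset ℕ) (ε : ℕ → ℤ), ↑F ⊆ I → (∀ e ∈ F, |ε e| ≤ 1) →
      (∑ e ∈ F, ε e * 2 ^ e) ∈ V) (F : Finset ℕ) (hF : ↑F ⊆ I) :
    ∑ e ∈ F, ‖((2 : ℤ) ^ e) • x‖ ≤ 1 / 4 := by
  have hs : ∀ e : ℕ, ∃ ε : ℤ, |ε| ≤ 1 ∧ ε • (((2 : ℤ) ^ e) • x)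
      = ((‖((2 : ℤ) ^ e) • x‖ : ℝ) : T) := fun e => exists_sign _
  choose ε hε1 hε2 using hs
  have key : ∀ G : Finset ℕ, ↑G ⊆ I → ‖((∑ e ∈ G, ‖((2 : ℤ) ^ e) • x‖ : ℝ) : T)‖ ≤ 1 / 4 := by
    intro G hG
    have h1 := hx _ (hI G ε hG (fun e _ => hε1 e))
    rw [Finset.sum_smul] at h1
    have h2 : ∑ e ∈ G, (ε e * 2 ^ e) • x = ((∑ e ∈ G, ‖((2 : ℤ) ^ e) • x‖ : ℝ) : T) := by
      have h3 : ((∑ e ∈ G, ‖((2 : ℤ) ^ e) • x‖ : ℝ) : T)
          = ∑ e ∈ G, ((‖((2 : ℤ) ^ e) • x‖ : ℝ) : T) := by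
        exact map_sum (QuotientAddGroup.mk' (AddSubgroup.zmultiples (1 : ℝ))) _ _
      rw [h3]
      refine Finset.sum_congr rfl fun e _ => ?_
      rw [mul_smul]
      exact hε2 e
    rwa [h2] at h1
  apply sum_le_quarter
  · intro i _; exact norm_nonneg _
  · intro i hi
    have h1 := hx _ (hI {i} (fun _ => 1) (by simpa using hF hi) (by simp))
    simpa using h1
  · intro G hG
    exact key G (fun e he => hF (hG he))

lemma summ_finite {V : Set ℤ} {x : T} (hx : x ∈ Pol V) {I : Set ℕ}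
    (hI : ∀ (F : Finset ℕ) (ε : ℕ → ℤ), ↑F ⊆ I → (∀ e ∈ F, |ε e| ≤ 1) →
      (∑ e ∈ F, ε e * 2 ^ e) ∈ V) {η : ℝ} (hη : 0 < η) :
    {e | e ∈ I ∧ η ≤ ‖((2 : ℤ) ^ e) • x‖}.Finite := by
  by_contra hinf
  have hinf : {e | e ∈ I ∧ η ≤ ‖((2 : ℤ) ^ e) • x‖}.Infinite := hinf
  obtain ⟨N, hN⟩ := exists_nat_gt (1 / η)
  obtain ⟨F, hF, hc⟩ := hinf.exists_subset_card_eq N
  have h1 := summ hx hI F (fun e he => (hF he).1)
  have h2 : (F.card : ℝ) * η ≤ ∑ e ∈ F, ‖((2 : ℤ) ^ e) • x‖ := by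
    rw [← nsmul_eq_mul]
    exact Finset.card_nsmul_le_sum _ _ _ (fun e he => (hF he).2)
  rw [hc] at h2
  rw [div_lt_iff₀ hη] at hN
  linarith

/-- from good exponents to all exponents -/
lemma dyadic_of_good {A : Set ℕ} (hA : Rich A) {x : T} {L : ℕ}
    (h : ∀ η : ℝ, 0 < η → {e | e ∈ {e | Good A L e} ∧ η ≤ ‖((2 : ℤ) ^ e) • x‖}.Finite) :
    ∃ E : ℕ, ((2 : ℤ) ^ E) • x = 0 := by
  obtain ⟨M, E0, hM⟩ := hA L
  obtain ⟨E1, hE1⟩ := (h (1 / (4 * 2 ^ M)) (by positivity)).bddAbove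
  have h1 : ∀ e, max E0 (E1 + 1) + M ≤ e → ‖((2 : ℤ) ^ e) • x‖ ≤ 1 / 4 := by
    intro e he
    have he0 : E0 ≤ e - M := by
      have := le_max_left E0 (E1 + 1); omega
    have he1 : E1 + 1 ≤ e - M := by
      have := le_max_right E0 (E1 + 1); omega
    obtain ⟨e', h1, h2, h3⟩ := hM (e - M) he0
    have h4 : ‖((2 : ℤ) ^ e') • x‖ < 1 / (4 * 2 ^ M) := by
      by_contra hcon
      push Not at hcon
      have := hE1 ⟨h3, hcon⟩
      omega
    have h5 : e = (e - e') + e' := by omega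
    rw [h5, pow_add, mul_smul]
    refine (norm_zs _ _).trans ?_
    have h6 : |(((2 : ℤ) ^ (e - e') : ℤ) : ℝ)| = 2 ^ (e - e') := by
      push_cast; exact abs_of_pos (by positivity)
    rw [h6]
    have h7 : (2 : ℝ) ^ (e - e') ≤ 2 ^ M := pow_le_pow_right₀ (by norm_num) (by omega)
    calc (2 : ℝ) ^ (e - e') * ‖((2 : ℤ) ^ e') • x‖ ≤ 2 ^ M * (1 / (4 * 2 ^ M)) := by gcongr
      _ = 1 / 4 := by field_simp
  refine ⟨max E0 (E1 + 1) + M, ?_⟩
  by_contra hne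
  have hpos := norm_pos_iff.mpr hne
  obtain ⟨m, hm⟩ := exists_nat_gt (1 / ‖((2 : ℤ) ^ (max E0 (E1 + 1) + M)) • x‖)
  have h2 := le_of_pow (z := ((2 : ℤ) ^ (max E0 (E1 + 1) + M)) • x) (m := m) (by
    intro i _
    rw [← mul_smul, ← pow_add]
    exact h1 _ (by omega))
  rw [le_div_iff₀ (by positivity)] at h2
  have h3 : (m : ℝ) < 2 ^ m := by exact_mod_cast Nat.lt_two_pow_self
  rw [div_lt_iff₀ hpos] at hm
  nlinarith

/-- elements killed by a power of two -/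
lemma dyadic_form {x : T} {E : ℕ} (h : ((2 : ℤ) ^ E) • x = 0) :
    ∃ k : ℤ, x = (((k : ℝ) / 2 ^ E : ℝ) : T) := by
  induction x using QuotientAddGroup.induction_on with
  | H u =>
    rw [show (QuotientAddGroup.mk u : T) = (u : T) from rfl, zsmul_coe,
      AddCircle.coe_eq_zero_iff] at h
    obtain ⟨k, hk⟩ := h
    refine ⟨k, ?_⟩
    rw [show (QuotientAddGroup.mk u : T) = (u : T) from rfl]
    congr 1
    push_cast at hk
    rw [eq_div_iff (by positivity)]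
    simp at hk
    linarith

lemma form_D (k : ℤ) (E : ℕ) : (((k : ℝ) / 2 ^ E : ℝ) : T) = k • D E := by
  unfold D
  rw [zsmul_coe]
  congr 1
  ring

/-- infinite subsets contain sparse infinite subsets -/
lemma exists_sparse {I : Set ℕ} (hI : I.Infinite) :
    ∃ J : Set ℕ, J ⊆ I ∧ J.Infinite ∧ ∀ e ∈ J, ∀ e' ∈ J, e < e' → 5 * e < e' := by
  have h1 : ∀ n, ∃ b ∈ I, n < b := fun n => hI.exists_gt n
  choose g hg1 hg2 using h1
  let f : ℕ → ℕ := fun i => Nat.rec (g 0) (fun _ r => g (5 * r)) i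
  have hf0 : f 0 = g 0 := rfl
  have hfs : ∀ i, f (i + 1) = g (5 * f i) := fun i => rfl
  have hfI : ∀ i, f i ∈ I := by
    intro i
    cases i with
    | zero => exact hg1 0
    | succ i => exact hg1 _
  have hlt : ∀ i, 5 * f i < f (i + 1) := fun i => by rw [hfs]; exact hg2 _
  have hmono : StrictMono f := strictMono_nat_of_lt_succ fun i => by
    have := hlt i; omega
  refine ⟨range f, by rintro _ ⟨i, rfl⟩; exact hfI i, Set.infinite_range_of_injective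
    hmono.injective, ?_⟩
  rintro _ ⟨i, rfl⟩ _ ⟨j, rfl⟩ hij
  have hij' : i < j := hmono.lt_iff_lt.mp hij
  have := hmono.monotone (show i + 1 ≤ j by omega)
  have := hlt i
  omega

end Pool.Agent.Q151.Dy
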