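import Pool.Agent.Q151.Dy.Comb

/-!
# The supremum of the topologies `τ_c` for `b = (2 ^ n)`
-/

set_option autoImplicit false
set_option linter.style.haveILetI false
set_option linter.unusedSectionVars false
set_option warn.classDefReducibility false

open Set Filter Topology

namespace Pool.Agent.Q151.Dy

open Pool.Agent.Q151.Mackey

/-- D-sequences -/
def IsD (b : ℕ → ℕ) : Prop :=
  b 0 = 1 ∧ (∀ n, 0 < b n) ∧ ∀ n, b n ∣ b (n + 1) ∧ b n ≠ b (n + 1)

/-- the class `𝒟_∞` -/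
def IsDinf (b : ℕ → ℕ) : Prop :=
  IsD b ∧ Tendsto (fun n => (b (n + 1) : ℝ) / b n) atTop atTop

lemma IsD.dvd {b : ℕ → ℕ} (h : IsD b) {m n : ℕ} (hmn : m ≤ n) : b m ∣ b n := by
  induction n, hmn using Nat.le_induction with
  | base => exact dvd_rfl
  | succ n _ ih => exact ih.trans (h.2.2 n).1

lemma IsD.mono {b : ℕ → ℕ} (h : IsD b) : StrictMono b := by
  apply strictMono_nat_of_lt_succ
  intro n
  exact lt_of_le_of_ne (Nat.le_of_dvd (h.2.1 _) (h.2.2 n).1) (h.2.2 n).2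

/-- the filter basis of `λ_b` -/
def fbL (b : ℕ → ℕ) : AddGroupFilterBasis ℤ :=
  addGroupFilterBasisOfComm {U | ∃ N : ℕ, U = {k : ℤ | ∀ n ≤ N, (b n : ℤ) ∣ k}}
    ⟨{k : ℤ | ∀ n ≤ 0, (b n : ℤ) ∣ k}, 0, rfl⟩
    (by
      rintro _ _ ⟨p, rfl⟩ ⟨q, rfl⟩
      refine ⟨_, ⟨max p q, rfl⟩, ?_⟩
      intro k hk
      exact ⟨fun n hn => hk n (hn.trans (le_max_left _ _)),
        fun n hn => hk n (hn.trans (le_max_right _ _))⟩)
    (by
      rintro _ ⟨p, rfl⟩ n _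
      exact dvd_zero _)
    (by
      rintro _ ⟨p, rfl⟩
      refine ⟨_, ⟨p, rfl⟩, ?_⟩
      rintro _ ⟨x, hx, y, hy, rfl⟩ n hn
      exact dvd_add (hx n hn) (hy n hn))
    (by
      rintro _ ⟨p, rfl⟩
      refine ⟨_, ⟨p, rfl⟩, ?_⟩
      intro k hk n hn
      exact (dvd_neg).mpr (hk n hn))

/-- `λ_b`: the group topology on `ℤ` whose basic neighbourhoods of `0` are the sets
`⋂ n ≤ N, b n ℤ` (this is `b N ℤ` for a D-sequence `b`) -/
def lam (b : ℕ → ℕ) : TopologicalSpace ℤ := (fbL b).topology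

lemma lam_group (b : ℕ → ℕ) : @IsTopologicalAddGroup ℤ (lam b) _ :=
  (fbL b).isTopologicalAddGroup

lemma mem_lam {b : ℕ → ℕ} {U : Set ℤ} :
    U ∈ @nhds ℤ (lam b) 0 ↔ ∃ N : ℕ, {k : ℤ | ∀ n ≤ N, (b n : ℤ) ∣ k} ⊆ U := by
  unfold lam
  rw [(AddGroupFilterBasis.nhds_zero_hasBasis (fbL b)).mem_iff]
  constructor
  · rintro ⟨_, ⟨p, rfl⟩, hU⟩
    exact ⟨p, hU⟩
  · rintro ⟨p, hU⟩
    exact ⟨_, ⟨p, rfl⟩, hU⟩

lemma lam_basis {b : ℕ → ℕ} (h : IsD b) :
    (@nhds ℤ (lam b) 0).HasBasis (fun _ : ℕ => True) (fun n => {k : ℤ | (b n : ℤ) ∣ k}) := by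
  have e : ∀ N, {k : ℤ | ∀ n ≤ N, (b n : ℤ) ∣ k} = {k : ℤ | (b N : ℤ) ∣ k} := by
    intro N
    ext k
    constructor
    · intro hk; exact hk N le_rfl
    · intro hk n hn
      exact dvd_trans (by exact_mod_cast h.dvd hn) hk
  constructor
  intro U
  rw [mem_lam]
  constructor
  · rintro ⟨N, hN⟩
    exact ⟨N, trivial, by rwa [e] at hN⟩
  · rintro ⟨N, -, hN⟩
    exact ⟨N, by rwa [e]⟩

/-- the characters `k ↦ k / b n` with `n ≥ 1` -/
def Sc (c : ℕ → ℕ) : Set T := {x | ∃ n : ℕ, 1 ≤ n ∧ x = ((1 / (c n : ℝ) : ℝ) : T)}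

/-- the topology `τ_c` -/
def tau (c : ℕ → ℕ) : TopologicalSpace ℤ := unif (Sc c)

/-- the supremum `s_b` (the coarsest topology finer than all `τ_c`) -/
def sb (b : ℕ → ℕ) : TopologicalSpace ℤ :=
  sInf {t | ∃ c : ℕ → ℕ, IsDinf c ∧ lam c = lam b ∧ t = tau c}

/-- the family of sets of characters -/
def Cb (b : ℕ → ℕ) : Set (Set T) := {S | ∃ c : ℕ → ℕ, IsDinf c ∧ lam c = lam b ∧ S = Sc c}

lemma sb_eq (b : ℕ → ℕ) : sb b = sInf (unif '' Cb b) := by
  unfold sb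
  congr 1
  ext t
  constructor
  · rintro ⟨c, h1, h2, rfl⟩
    exact ⟨Sc c, ⟨c, h1, h2, rfl⟩, rfl⟩
  · rintro ⟨_, ⟨c, h1, h2, rfl⟩, rfl⟩
    exact ⟨c, h1, h2, rfl⟩

lemma sb_group (b : ℕ → ℕ) : @IsTopologicalAddGroup ℤ (sb b) _ := by
  rw [sb_eq]; exact sup_group _

lemma sb_lqc (b : ℕ → ℕ) : LocallyQuasiConvex (sb b) := by
  rw [sb_eq]; exact lqc_sup _

/-- the sequence of powers of two -/
def b2 : ℕ → ℕ := fun n => 2 ^ n

lemma isD_b2 : IsD b2 := by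
  refine ⟨rfl, fun n => by unfold b2; positivity, fun n => ⟨?_, ?_⟩⟩
  · unfold b2; exact pow_dvd_pow 2 (by omega)
  · unfold b2
    have := Nat.pow_lt_pow_right (a := 2) (by norm_num) (Nat.lt_succ_self n)
    exact this.ne

lemma pow_of_lam {c : ℕ → ℕ} (hl : lam c = lam b2) (n : ℕ) : ∃ a, c n = 2 ^ a := by
  have h1 : {k : ℤ | ∀ m ≤ n, (c m : ℤ) ∣ k} ∈ @nhds ℤ (lam b2) 0 := by
    rw [← hl]
    exact mem_lam.mpr ⟨n, Subset.rfl⟩
  obtain ⟨N, hN⟩ := mem_lam.mp h1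
  have h2 : ((2 ^ N : ℕ) : ℤ) ∈ {k : ℤ | ∀ m ≤ N, (b2 m : ℤ) ∣ k} := by
    intro m hm
    unfold b2
    exact_mod_cast pow_dvd_pow 2 hm
  have h3 := hN h2 n le_rfl
  have h4 : c n ∣ 2 ^ N := by exact_mod_cast h3
  obtain ⟨a, -, ha⟩ := (Nat.dvd_prime_pow Nat.prime_two).mp h4
  exact ⟨a, ha⟩

lemma gap_of_lam {c : ℕ → ℕ} (hc : IsDinf c) (hl : lam c = lam b2) :
    ∃ A, Gap A ∧ Sc c ⊆ D '' A := by
  refine ⟨{a | ∃ n, c n = 2 ^ a}, ?_, ?_⟩
  · intro M
    have h1 := hc.2.eventually_ge_atTop ((2 : ℝ) ^ M)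
    rw [eventually_atTop] at h1
    obtain ⟨N, hN⟩ := h1
    refine ⟨c N, ?_⟩
    rintro a ⟨n, hn⟩ a' ⟨n', hn'⟩ hlt hle
    have h2 : N ≤ n := by
      by_contra hcon
      push Not at hcon
      have h3 := hc.1.mono hcon
      have h4 : a < 2 ^ a := Nat.lt_two_pow_self
      omega
    have h5 : n < n' := by
      apply hc.1.mono.lt_iff_lt.mp
      rw [hn, hn']
      exact Nat.pow_lt_pow_right (by norm_num) hlt
    have h6 := hN n h2
    have h7 : (0 : ℝ) < c n := by exact_mod_cast hc.1.2.1 n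
    rw [le_div_iff₀ h7] at h6
    have h8 : 2 ^ M * c n ≤ c (n + 1) := by exact_mod_cast h6
    have h9 : c (n + 1) ≤ c n' := hc.1.mono.monotone h5
    rw [hn] at h8
    rw [hn'] at h9
    have h10 : 2 ^ (M + a) ≤ 2 ^ a' := by
      rw [pow_add]; exact h8.trans h9
    have := (Nat.pow_le_pow_iff_right (by norm_num)).mp h10
    omega
  · rintro _ ⟨n, -, rfl⟩
    obtain ⟨a, ha⟩ := pow_of_lam hl n
    refine ⟨a, ⟨n, ha⟩, ?_⟩
    unfold D
    rw [ha]
    push_cast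
    rfl

lemma mem_sb {U : Set ℤ} (hU : U ∈ @nhds ℤ (sb b2) 0) :
    ∃ A, K A ∧ ∃ m : ℕ, 1 ≤ m ∧ Bs (D '' A) (1 / (4 * m)) ⊆ U := by
  classical
  rw [sb_eq] at hU
  obtain ⟨F, hF, m, hm, hB⟩ := mem_sup hU
  have key : ∀ F : Finset (Set T), (↑F ⊆ Cb b2) → ∃ A, K A ∧ ∀ S ∈ F, S ⊆ D '' A := by
    intro F
    induction F using Finset.induction_on with
    | empty => intro _; exact ⟨∅, K.empty, by simp⟩
    | @insert S F _ ih =>
      intro h
      rw [Finset.coe_insert, insert_subset_iff] at h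
      obtain ⟨A, hA, hA2⟩ := ih h.2
      obtain ⟨c, hc, hl, rfl⟩ := h.1
      obtain ⟨B, hB, hB2⟩ := gap_of_lam hc hl
      refine ⟨A ∪ B, K.union hA hB, ?_⟩
      intro S hS
      rw [Finset.mem_insert] at hS
      rcases hS with rfl | hS
      · exact hB2.trans (image_mono subset_union_right)
      · exact (hA2 S hS).trans (image_mono subset_union_left)
  obtain ⟨A, hA, hA2⟩ := key F hF
  refine ⟨A, hA, m, hm, ?_⟩
  intro n hn
  apply hB
  simp only [mem_iInter]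
  intro S hS
  exact Bs_mono (hA2 S hS) le_rfl hn

lemma eps_le {m L : ℕ} (hm : 1 ≤ m) (hL : m + 3 ≤ L) :
    2 * ((1 : ℝ) / 2) ^ L ≤ 1 / (4 * m) := by
  have h1 : ((1 : ℝ) / 2) ^ L ≤ (1 / 2) ^ (m + 3) :=
    pow_le_pow_of_le_one (by norm_num) (by norm_num) hL
  have h2 : (m : ℝ) ≤ 2 ^ m := by exact_mod_cast (Nat.lt_two_pow_self (n := m)).le
  have h3 : (0 : ℝ) < m := by exact_mod_cast hm
  have h4 : 2 * ((1 : ℝ) / 2) ^ (m + 3) = 1 / (4 * 2 ^ m) := by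
    rw [pow_add, one_div_pow]
    field_simp
    norm_num
  calc 2 * ((1 : ℝ) / 2) ^ L ≤ 2 * (1 / 2) ^ (m + 3) := by gcongr
    _ = 1 / (4 * 2 ^ m) := h4
    _ ≤ 1 / (4 * m) := one_div_le_one_div_of_le (by positivity) (by linarith)

lemma core1 {A : Set ℕ} (hA : K A) {m : ℕ} (hm : 1 ≤ m) {x : T}
    (hx : x ∈ Pol (Bs (D '' A) (1 / (4 * m)))) : ∃ E : ℕ, ((2 : ℤ) ^ E) • x = 0 := by
  apply dyadic_of_good hA.rich (L := m + 3)
  intro η hη
  apply summ_finite hx _ hη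
  intro F ε hF hε
  rintro _ ⟨a, ha, rfl⟩
  exact (norm_signed_D hε (fun e he hlt => hF he a ha hlt)).trans (eps_le hm le_rfl)

/-- the dyadic points -/
def Dy : Set T := {x | ∃ E : ℕ, ((2 : ℤ) ^ E) • x = 0}

lemma dual_sub_of {τ : TopologicalSpace ℤ} (hg : @IsTopologicalAddGroup ℤ τ _) {x : T}
    (hx : x ∈ dual τ) : {n : ℤ | ‖n • x‖ ≤ 1 / 4} ∈ @nhds ℤ τ 0 := by
  haveI := hg
  have h1 : Bs ((({x} : Finset T)) : Set T) (1 / 4) ∈ @nhds ℤ τ 0 :=
    Bs_nhds τ (by simpa using hx) (by norm_num)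
  refine Filter.mem_of_superset h1 ?_
  intro n hn
  exact hn x (by simp)

lemma dual_sb_sub : (dual (sb b2) : Set T) ⊆ Dy := by
  intro x hx
  obtain ⟨A, hA, m, hm, hB⟩ := mem_sb (dual_sub_of (sb_group b2) hx)
  exact core1 hA hm fun n hn => hB hn

lemma Dy_sub_of {H : AddSubgroup T} (h : ∀ N : ℕ, ∃ N', N ≤ N' ∧ D N' ∈ H) :
    Dy ⊆ (H : Set T) := by
  rintro x ⟨E, hE⟩
  obtain ⟨k, rfl⟩ := dyadic_form hE
  rw [form_D]
  obtain ⟨N', h1, h2⟩ := h E
  rw [D_le h1]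
  exact H.zsmul_mem (H.zsmul_mem h2 _) _

/-- the sequence `2 ^ (n ^ 2)` -/
def c2 : ℕ → ℕ := fun n => 2 ^ (n * n)

lemma isDinf_c2 : IsDinf c2 := by
  refine ⟨⟨rfl, fun n => by unfold c2; positivity, fun n => ⟨?_, ?_⟩⟩, ?_⟩
  · unfold c2; exact pow_dvd_pow 2 (by nlinarith)
  · unfold c2
    have := Nat.pow_lt_pow_right (a := 2) (by norm_num) (show n * n < (n + 1) * (n + 1) by nlinarith)
    exact this.ne
  · have e : (fun n => (c2 (n + 1) : ℝ) / c2 n) = fun n => (2 : ℝ) ^ (2 * n + 1) := by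
      ext n
      unfold c2
      push_cast
      rw [div_eq_iff (by positivity), ← pow_add]
      congr 1
      ring
    rw [e]
    refine (tendsto_pow_atTop_atTop_of_one_lt (by norm_num : (1 : ℝ) < 2)).comp ?_
    exact tendsto_atTop_mono (fun n => show n ≤ 2 * n + 1 by omega) tendsto_id

lemma lam_c2 : lam c2 = lam b2 := by
  refine IsTopologicalAddGroup.ext (lam_group c2) (lam_group b2) ?_
  ext U
  rw [mem_lam, mem_lam]
  constructor
  · rintro ⟨N, hN⟩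
    refine ⟨N * N, Subset.trans ?_ hN⟩
    intro k hk n hn
    exact hk (n * n) (Nat.mul_le_mul hn hn)
  · rintro ⟨N, hN⟩
    refine ⟨N, Subset.trans ?_ hN⟩
    intro k hk n hn
    refine dvd_trans ?_ (hk n hn)
    unfold b2 c2
    exact_mod_cast pow_dvd_pow 2 (Nat.le_mul_self n)

lemma Dy_sub_sb : Dy ⊆ (dual (sb b2) : Set T) := by
  apply Dy_sub_of
  intro N
  refine ⟨(N + 1) * (N + 1), by nlinarith, ?_⟩
  have h1 : sb b2 ≤ unif (Sc c2) := sInf_le ⟨c2, isDinf_c2, lam_c2, rfl⟩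
  apply dual_mono h1 (sb_group b2) unif_group
  apply subset_dual_unif
  refine ⟨N + 1, by omega, ?_⟩
  unfold D c2
  push_cast
  rfl

lemma dual_sb : (dual (sb b2) : Set T) = Dy := Subset.antisymm dual_sb_sub Dy_sub_sb

/-! ## the topology `σ` -/

/-- the exponents in the `k`-th zone -/
def Pk (k : ℕ) : Finset ℕ := (Finset.Icc 1 k).image (fun j => k ^ 3 + j * k)

/-- all exponents -/
def P : Set ℕ := {a | ∃ k, a ∈ Pk k}

/-- the special characters -/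
noncomputable def sk (k : ℕ) : T := ∑ a ∈ Pk k, D a

/-- the set defining `σ` -/
def Sp : Set T := {x | ∃ k : ℕ, 1 ≤ k ∧ (x = sk k ∨ x = D (k ^ 3 + k * k))}

lemma mem_Pk {k a : ℕ} : a ∈ Pk k ↔ ∃ j, 1 ≤ j ∧ j ≤ k ∧ a = k ^ 3 + j * k := by
  unfold Pk
  simp only [Finset.mem_image, Finset.mem_Icc]
  constructor
  · rintro ⟨j, ⟨h1, h2⟩, rfl⟩; exact ⟨j, h1, h2, rfl⟩
  · rintro ⟨j, h1, h2, rfl⟩; exact ⟨j, ⟨h1, h2⟩, rfl⟩

lemma Pk_ge {k a : ℕ} (h : a ∈ Pk k) : k ^ 3 + k ≤ a := by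
  obtain ⟨j, h1, h2, rfl⟩ := mem_Pk.mp h
  nlinarith

lemma Pk_le {k a : ℕ} (h : a ∈ Pk k) : a ≤ k ^ 3 + k * k := by
  obtain ⟨j, h1, h2, rfl⟩ := mem_Pk.mp h
  have := Nat.mul_le_mul_right k h2
  omega

lemma Pk_pos {k a : ℕ} (h : a ∈ Pk k) : 1 ≤ k := by
  obtain ⟨j, h1, h2, rfl⟩ := mem_Pk.mp h
  omega

lemma zone_lt {k k' : ℕ} (h : k < k') : k ^ 3 + k * k + k ≤ k' ^ 3 + k' := by
  have h1 : (k + 1) ^ 3 ≤ k' ^ 3 := Nat.pow_le_pow_left h 3
  nlinarith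

lemma gap_P : Gap P := by
  intro M
  refine ⟨M ^ 3 + M * M + 1, ?_⟩
  rintro a ⟨k, ha⟩ a' ⟨k', ha'⟩ hlt hle
  have hkM : M ≤ k := by
    by_contra hcon
    push Not at hcon
    have h1 := Pk_le ha
    have h2 : k ^ 3 ≤ M ^ 3 := Nat.pow_le_pow_left hcon.le 3
    have h3 : k * k ≤ M * M := Nat.mul_le_mul hcon.le hcon.le
    omega
  rcases lt_trichotomy k k' with h | h | h
  · have h1 := zone_lt h
    have h2 := Pk_le ha
    have h3 := Pk_ge ha'
    omega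
  · subst h
    obtain ⟨j, h1, h2, rfl⟩ := mem_Pk.mp ha
    obtain ⟨j', h1', h2', rfl⟩ := mem_Pk.mp ha'
    have h3 : j < j' := by
      by_contra hcon
      push Not at hcon
      have := Nat.mul_le_mul_right k hcon
      omega
    have := Nat.mul_le_mul_right k h3
    rw [Nat.succ_mul] at this
    omega
  · have h1 := zone_lt h
    have h2 := Pk_le ha'
    have h3 := Pk_ge ha
    omega

/-- the real number representing `2 ^ e • sk k` -/
noncomputable def W (k e : ℕ) : ℝ := ∑ a ∈ Pk k, w e a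

lemma W_nonneg (k e : ℕ) : 0 ≤ W k e := Finset.sum_nonneg fun _ _ => w_nonneg _ _

lemma coe_sum {ι : Type*} (F : Finset ι) (v : ι → ℝ) :
    ((∑ i ∈ F, v i : ℝ) : T) = ∑ i ∈ F, (v i : T) :=
  map_sum (QuotientAddGroup.mk' (AddSubgroup.zmultiples (1 : ℝ))) _ _

lemma smul_sk (k e : ℕ) : ((2 : ℤ) ^ e) • sk k = (W k e : T) := by
  unfold sk W
  rw [Finset.smul_sum, coe_sum]
  exact Finset.sum_congr rfl fun a _ => smul_D e a

/-- the bound for sparse good sets of exponents -/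
lemma sparse_bound {F : Finset ℕ} {L : ℕ} (hF : ∀ e ∈ F, Good P L e)
    (hs : ∀ e ∈ F, ∀ e' ∈ F, e < e' → 5 * e < e') {k : ℕ} (hk : 1 ≤ k) :
    ∑ e ∈ F, W k e ≤ 6 * (1 / 2) ^ L := by
  classical
  have hWL : ∀ e ∈ F, W k e ≤ 2 * (1 / 2) ^ L := by
    intro e he
    exact sum_w_a fun a ha hlt => hF e he a ⟨k, ha⟩ hlt
  set q := k ^ 3 + k with hq
  have hqP : q ∈ Pk k := mem_Pk.mpr ⟨1, le_rfl, hk, by rw [hq, one_mul]⟩
  rw [← Finset.sum_filter_add_sum_filter_not F (fun e => e < q)]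
  have h1 : ∑ e ∈ F.filter (fun e => e < q), W k e ≤ 4 * (1 / 2) ^ L := by
    have h2 : ∀ e ∈ F.filter (fun e => e < q), W k e ≤ 2 * w e q := by
      intro e he
      rw [Finset.mem_filter] at he
      have h3 : W k e ≤ 2 * (1 / 2) ^ (q - e) := by
        apply sum_w_a
        intro a ha _
        have := Pk_ge ha
        omega
      refine h3.trans (le_of_eq ?_)
      unfold w
      rw [if_pos he.2]
      obtain ⟨c, hc⟩ := Nat.exists_eq_add_of_le he.2.le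
      rw [hc, Nat.add_sub_cancel_left, pow_add]
      have : (2 : ℝ) ^ e * (1 / 2) ^ e = 1 := by
        rw [← mul_pow]; norm_num
      linear_combination -2 * (1 / 2) ^ c * this
    refine (Finset.sum_le_sum h2).trans ?_
    rw [← Finset.mul_sum]
    have h3 : ∑ e ∈ F.filter (fun e => e < q), w e q ≤ 2 * (1 / 2) ^ L := by
      apply sum_w_e
      intro e he hlt
      rw [Finset.mem_filter] at he
      exact hF e he.1 q ⟨k, hqP⟩ hlt
    linarith
  have h2 : ∑ e ∈ F.filter (fun e => ¬ e < q), W k e ≤ 2 * (1 / 2) ^ L := by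
    rw [← Finset.sum_filter_add_sum_filter_not (F.filter (fun e => ¬ e < q))
      (fun e => e < k ^ 3 + k * k)]
    have h3 : ∑ e ∈ (F.filter (fun e => ¬ e < q)).filter (fun e => ¬ e < k ^ 3 + k * k),
        W k e = 0 := by
      apply Finset.sum_eq_zero
      intro e he
      rw [Finset.mem_filter] at he
      unfold W
      apply Finset.sum_eq_zero
      intro a ha
      have := Pk_le ha
      unfold w
      rw [if_neg (by omega)]
    rw [h3, add_zero]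
    set G := (F.filter (fun e => ¬ e < q)).filter (fun e => e < k ^ 3 + k * k) with hG
    have hGm : ∀ e ∈ G, e ∈ F ∧ q ≤ e ∧ e < k ^ 3 + k * k := by
      intro e he
      rw [hG, Finset.mem_filter, Finset.mem_filter] at he
      exact ⟨he.1.1, by omega, he.2⟩
    have hcard : G.card ≤ 1 := by
      rw [Finset.card_le_one]
      have key : ∀ e ∈ G, ∀ e' ∈ G, ¬ e < e' := by
        intro e he e' he' hlt
        obtain ⟨h4, h5, h6⟩ := hGm e he
        obtain ⟨h7, h8, h9⟩ := hGm e' he'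
        have h10 := hs e h4 e' h7 hlt
        have h11 : k * k ≤ k ^ 3 := by nlinarith
        omega
      intro e he e' he'
      exact le_antisymm (not_lt.mp (key e' he' e he)) (not_lt.mp (key e he e' he'))
    have h5 : ∑ e ∈ G, W k e ≤ G.card • (2 * (1 / 2) ^ L) :=
      Finset.sum_le_card_nsmul _ _ _ fun e he => hWL e (hGm e he).1
    refine h5.trans ?_
    rw [nsmul_eq_mul]
    have h6 : (G.card : ℝ) ≤ 1 := by exact_mod_cast hcard
    have h7 : (0 : ℝ) < (1 / 2) ^ L := by positivity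
    nlinarith
  linarith

lemma eps_le' {m : ℕ} (hm : 1 ≤ m) : 6 * ((1 : ℝ) / 2) ^ (m + 5) ≤ 1 / (4 * m) := by
  have h := eps_le hm (L := m + 3) le_rfl
  have h2 : ((1 : ℝ) / 2) ^ (m + 5) = (1 / 2) ^ (m + 3) * (1 / 4) := by
    rw [show m + 5 = (m + 3) + 2 by omega, pow_add]; norm_num
  have h3 : (0 : ℝ) < (1 / 2) ^ (m + 3) := by positivity
  rw [h2]
  linarith

lemma dual_sig_sub : (dual (unif Sp) : Set T) ⊆ Dy := by
  intro x hx
  obtain ⟨m, hm, hB⟩ := mem_unif.mp (dual_sub_of unif_group hx)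
  have hP : x ∈ Pol (Bs Sp (1 / (4 * m))) := fun n hn => hB hn
  apply dyadic_of_good (K.of_gap gap_P).rich (L := m + 5)
  intro η hη
  by_contra hinf
  have hinf : {e | e ∈ {e | Good P (m + 5) e} ∧ η ≤ ‖((2 : ℤ) ^ e) • x‖}.Infinite := hinf
  obtain ⟨J, hJ1, hJ2, hJ3⟩ := exists_sparse hinf
  have hfin := summ_finite hP (I := J) ?_ hη
  · apply hJ2
    refine hfin.subset ?_
    intro e he
    exact ⟨he, (hJ1 he).2⟩
  · intro F ε hF hε
    rintro y ⟨k, hk, rfl | rfl⟩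
    · refine (norm_signed_le hε _).trans ?_
      refine le_trans (Finset.sum_le_sum fun e _ => ?_) ((sparse_bound (F := F) (L := m + 5)
        (fun e he => (hJ1 (hF he)).1) (fun e he e' he' => hJ3 e (hF he) e' (hF he')) hk).trans
        (eps_le' hm))
      rw [smul_sk]
      refine (norm_coe_le _).trans ?_
      rw [abs_of_nonneg (W_nonneg _ _)]
    · refine (norm_signed_D hε (L := m + 5) (fun e he hlt => ?_)).trans
        (eps_le hm (by omega))
      exact (hJ1 (hF he)).1 _ ⟨k, mem_Pk.mpr ⟨k, hk, le_rfl, rfl⟩⟩ hlt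

lemma Dy_sub_sig : Dy ⊆ (dual (unif Sp) : Set T) := by
  apply Dy_sub_of
  intro N
  refine ⟨(N + 1) ^ 3 + (N + 1) * (N + 1), by nlinarith, ?_⟩
  apply subset_dual_unif
  exact ⟨N + 1, by omega, Or.inr rfl⟩

lemma dual_sigma : (dual (unif Sp) : Set T) = Dy := Subset.antisymm dual_sig_sub Dy_sub_sig

/-- `σ` is not coarser than `s_b` -/
lemma not_le : ¬ (sb b2 ≤ unif Sp) := by
  classical
  intro hle
  have hU : Bs Sp (1 / (4 * (1 : ℕ))) ∈ @nhds ℤ (sb b2) 0 :=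
    nhds_mono hle (Bs_mem_unif (S := Sp) (m := 1) le_rfl)
  obtain ⟨A, hA, m, hm, hB⟩ := mem_sb hU
  obtain ⟨M, E0, hM⟩ := hA.rich (m + 3)
  obtain ⟨X, hX⟩ : ∃ X : ℕ, X = 2 ^ (M + 3) := ⟨_, rfl⟩
  obtain ⟨k, hk⟩ : ∃ k : ℕ, k = E0 + M + 4 + X := ⟨_, rfl⟩
  have hk1 : 1 ≤ k := by omega
  have hk3 : k ≤ k ^ 3 := Nat.le_self_pow (by norm_num) k
  have hex : ∀ j : ℕ, ∃ e', k ^ 3 + j * k ≤ e' + 3 + M ∧ e' + 3 ≤ k ^ 3 + j * k ∧
      Good A (m + 3) e' := by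
    intro j
    have h0 : 0 ≤ j * k := Nat.zero_le _
    obtain ⟨e', h1, h2, h3⟩ := hM (k ^ 3 + j * k - 3 - M) (by omega)
    exact ⟨e', by omega, by omega, h3⟩
  choose e he1 he2 he3 using hex
  have hsucc : ∀ j, e j < e (j + 1) := by
    intro j
    have h1 := he2 j
    have h2 := he1 (j + 1)
    rw [Nat.succ_mul] at h2
    omega
  have hmono : StrictMono e := strictMono_nat_of_lt_succ hsucc
  -- the sums are in the neighbourhood
  have hin : ∀ G : Finset ℕ, ‖((∑ j ∈ G, W k (e j) : ℝ) : T)‖ ≤ 1 / 4 := by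
    intro G
    have h1 : (∑ i ∈ G.image e, (1 : ℤ) * 2 ^ i) ∈ Bs (D '' A) (1 / (4 * m)) := by
      rintro _ ⟨a, ha, rfl⟩
      refine (norm_signed_D (F := G.image e) (ε := fun _ => 1) (fun _ _ => by simp)
        (L := m + 3) ?_).trans (eps_le hm le_rfl)
      intro i hi hlt
      rw [Finset.mem_image] at hi
      obtain ⟨j, -, rfl⟩ := hi
      exact he3 j a ha hlt
    have h2 := hB h1 (sk k) ⟨k, hk1, Or.inl rfl⟩
    rw [Finset.sum_image (fun a _ b _ hab => hmono.injective hab), Finset.sum_smul] at h2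
    have h3 : ∑ i ∈ G, ((1 : ℤ) * 2 ^ e i) • sk k = ((∑ j ∈ G, W k (e j) : ℝ) : T) := by
      rw [coe_sum]
      refine Finset.sum_congr rfl fun i _ => ?_
      rw [one_mul, smul_sk]
    rw [h3] at h2
    norm_num at h2 ⊢
    exact h2
  have hq := sum_le_quarter (v := fun j => W k (e j)) (Finset.Icc 1 k)
    (fun j _ => W_nonneg _ _) (fun j _ => by
      have : W k (e j) ≤ 2 * (1 / 2) ^ 3 := by
        apply sum_w_a
        intro a ha hlt
        obtain ⟨i, hi1, hi2, rfl⟩ := mem_Pk.mp ha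
        rcases Nat.lt_or_ge i j with h | h
        · exfalso
          have h1 := Nat.mul_le_mul_right k h
          rw [Nat.succ_mul] at h1
          have h2 := he1 j
          omega
        · have h1 := Nat.mul_le_mul_right k h
          have h2 := he2 j
          omega
      norm_num at this ⊢
      exact this)
    (fun G _ => hin G)
  have hlow : ∀ j ∈ Finset.Icc 1 k, ((1 : ℝ) / 2) ^ (M + 3) ≤ W k (e j) := by
    intro j hj
    rw [Finset.mem_Icc] at hj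
    have hmem : k ^ 3 + j * k ∈ Pk k := mem_Pk.mpr ⟨j, hj.1, hj.2, rfl⟩
    have h1 : w (e j) (k ^ 3 + j * k) ≤ W k (e j) :=
      Finset.single_le_sum (f := fun a => w (e j) a) (fun a _ => w_nonneg _ _) hmem
    refine le_trans ?_ h1
    unfold w
    have h2 := he1 j
    have h3 := he2 j
    rw [if_pos (by omega)]
    obtain ⟨c, hc⟩ := Nat.exists_eq_add_of_le (show e j ≤ k ^ 3 + j * k by omega)
    rw [hc]
    have h4 : (2 : ℝ) ^ e j * (1 / 2) ^ e j = 1 := by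
      rw [← mul_pow]; norm_num
    have h5 : ((1 : ℝ) / 2) ^ (M + 3) ≤ (1 / 2) ^ c :=
      pow_le_pow_of_le_one (by norm_num) (by norm_num) (by omega)
    calc ((1 : ℝ) / 2) ^ (M + 3) ≤ (1 / 2) ^ c := h5
      _ = 2 ^ e j * (1 / 2) ^ (e j + c) := by
        rw [pow_add]
        linear_combination -(1 / 2) ^ c * h4
  have h1 : ((Finset.Icc 1 k).card : ℝ) * (1 / 2) ^ (M + 3) ≤ ∑ j ∈ Finset.Icc 1 k, W k (e j) := by
    rw [← nsmul_eq_mul]
    exact Finset.card_nsmul_le_sum _ _ _ hlow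
  rw [Nat.card_Icc, Nat.add_sub_cancel] at h1
  have h2 : ((2 : ℝ) ^ (M + 3)) ≤ k := by
    rw [hk, hX]
    push_cast
    have : (0 : ℝ) ≤ E0 := Nat.cast_nonneg _
    have : (0 : ℝ) ≤ M := Nat.cast_nonneg _
    linarith
  have h3 : (1 : ℝ) ≤ k * (1 / 2) ^ (M + 3) := by
    have h4 : (2 : ℝ) ^ (M + 3) * (1 / 2) ^ (M + 3) = 1 := by
      rw [← mul_pow]; norm_num
    have h5 : (0 : ℝ) < (1 / 2) ^ (M + 3) := by positivity
    nlinarith
  linarith

lemma t2_sigma : @T2Space ℤ (unif Sp) := by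
  refine @IsTopologicalAddGroup.t2Space_of_zero_sep ℤ (unif Sp) _ unif_group ?_
  intro n hn
  set N := n.natAbs with hN
  set q := (N + 1) ^ 3 + (N + 1) * (N + 1) with hq
  have h1 : n • D q ≠ 0 := by
    unfold D
    rw [zsmul_coe]
    intro h0
    rw [AddCircle.coe_eq_zero_iff] at h0
    obtain ⟨k, hk⟩ := h0
    have h2 : (n : ℝ) = k * 2 ^ q := by
      have : (2 : ℝ) ^ q ≠ 0 := by positivity
      field_simp at hk
      simp at hk
      linarith
    have h3 : n = k * 2 ^ q := by exact_mod_cast h2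
    have h4 : ((2 : ℤ) ^ q) ∣ n := ⟨k, by rw [h3, mul_comm]⟩
    have h5 := Int.le_of_dvd (abs_pos.mpr hn) ((dvd_abs _ _).mpr h4)
    rw [Int.abs_eq_natAbs, ← hN] at h5
    have h6 : 2 ^ q ≤ N := by exact_mod_cast h5
    have h7 : q < 2 ^ q := Nat.lt_two_pow_self
    have h8 : N ≤ q := by rw [hq]; nlinarith
    omega
  have hpos := norm_pos_iff.mpr h1
  obtain ⟨m, hm⟩ := exists_nat_gt (1 / ‖n • D q‖)
  refine ⟨Bs Sp (1 / (4 * (m + 1 : ℕ))), Bs_mem_unif (by omega), fun hmem => ?_⟩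
  have h2 := hmem (D q) ⟨N + 1, by omega, Or.inr rfl⟩
  rw [le_div_iff₀ (by positivity)] at h2
  rw [div_lt_iff₀ hpos] at hm
  push_cast at h2
  nlinarith [norm_nonneg (n • D q)]

end Pool.Agent.Q151.Dy
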