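import Pool.Agent.Q151.Mackey.Main

/-!
# Topologies of uniform convergence on a set of characters of `ℤ`
-/

set_option autoImplicit false
set_option linter.style.haveILetI false
set_option linter.unusedSectionVars false
set_option warn.classDefReducibility false

open Set Filter Topology

namespace Pool.Agent.Q151.Dy

open Pool.Agent.Q151.Mackey

lemma one_div_anti {p q : ℕ} (hp : 1 ≤ p) (hpq : p ≤ q) :
    (1 : ℝ) / (4 * q) ≤ 1 / (4 * p) := by
  have hp0 : (0 : ℝ) < p := by exact_mod_cast hp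
  have hq : (p : ℝ) ≤ q := by exact_mod_cast hpq
  exact one_div_le_one_div_of_le (by positivity) (by linarith)

/-- the filter basis of the topology of uniform convergence on the set `S` of characters of `ℤ`
(identified with elements of the circle `ℝ/ℤ`): the basic neighbourhoods of `0` are the sets of all
`n` with `n a ∈ [-1/(4m), 1/(4m)] + ℤ` for all `a ∈ S`. -/
def fbU (S : Set T) : AddGroupFilterBasis ℤ :=
  addGroupFilterBasisOfComm {U | ∃ m : ℕ, 1 ≤ m ∧ U = Bs S (1 / (4 * m))}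
    ⟨Bs S (1 / (4 * (1 : ℕ))), 1, le_rfl, rfl⟩
    (by
      rintro _ _ ⟨p, hp, rfl⟩ ⟨q, hq, rfl⟩
      exact ⟨Bs S (1 / (4 * (max p q : ℕ))), ⟨max p q, le_trans hp (le_max_left _ _), rfl⟩,
        subset_inter (Bs_mono Subset.rfl (one_div_anti hp (le_max_left _ _)))
          (Bs_mono Subset.rfl (one_div_anti hq (le_max_right _ _)))⟩)
    (by
      rintro _ ⟨p, hp, rfl⟩ a _
      simp)
    (by
      rintro _ ⟨p, hp, rfl⟩
      refine ⟨Bs S (1 / (4 * (2 * p : ℕ))), ⟨2 * p, by omega, rfl⟩, ?_⟩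
      have hp0 : (0 : ℝ) < p := by exact_mod_cast hp
      have e : (1 : ℝ) / (4 * p) = 1 / (4 * ((2 * p : ℕ) : ℝ)) + 1 / (4 * ((2 * p : ℕ) : ℝ)) := by
        push_cast; field_simp; norm_num
      rintro _ ⟨a, ha, b, hb, rfl⟩ x hx
      simp only
      rw [add_smul, e]
      exact (norm_add_le _ _).trans (add_le_add (ha x hx) (hb x hx)))
    (by
      rintro _ ⟨p, hp, rfl⟩
      refine ⟨Bs S (1 / (4 * p)), ⟨p, hp, rfl⟩, ?_⟩
      intro n hn x hx
      rw [neg_smul, norm_neg]; exact hn x hx)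

/-- the topology of uniform convergence on the set `S` of characters of `ℤ` -/
def unif (S : Set T) : TopologicalSpace ℤ := (fbU S).topology

section
variable {S : Set T}

lemma unif_group : @IsTopologicalAddGroup ℤ (unif S) _ := (fbU S).isTopologicalAddGroup

lemma mem_unif {U : Set ℤ} : U ∈ @nhds ℤ (unif S) 0 ↔ ∃ m : ℕ, 1 ≤ m ∧ Bs S (1 / (4 * m)) ⊆ U := by
  unfold unif
  rw [(AddGroupFilterBasis.nhds_zero_hasBasis (fbU S)).mem_iff]
  constructor
  · rintro ⟨_, ⟨p, hp, rfl⟩, hU⟩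
    exact ⟨p, hp, hU⟩
  · rintro ⟨p, hp, hU⟩
    exact ⟨_, ⟨p, hp, rfl⟩, hU⟩

lemma Bs_mem_unif {m : ℕ} (hm : 1 ≤ m) : Bs S (1 / (4 * m)) ∈ @nhds ℤ (unif S) 0 :=
  mem_unif.mpr ⟨m, hm, Subset.rfl⟩

lemma subset_dual_unif : S ⊆ dual (unif S) := by
  intro x hx
  haveI := unif_group (S := S)
  refine bdd_mem_dual (unif S) (Bs_mem_unif (S := S) (m := 1) le_rfl) ?_
  intro n hn
  have := hn x hx
  norm_num at this ⊢
  exact this

/-- the sets `Bs S (1 / (4 * 2 ^ p))` are quasi-convex with respect to all topologies for which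
the elements of `S` are continuous -/
lemma exists_sep {H : AddSubgroup T} (hS : S ⊆ H) (p : ℕ) {n : ℤ}
    (hn : n ∉ Bs S (1 / (4 * 2 ^ p))) :
    ∃ y ∈ H, (∀ q ∈ Bs S (1 / (4 * 2 ^ p)), ‖q • y‖ ≤ 1 / 4) ∧ 1 / 4 < ‖n • y‖ := by
  have : ∃ a ∈ S, 1 / (4 * 2 ^ p) < ‖n • a‖ := by
    by_contra hcon
    push Not at hcon
    exact hn hcon
  obtain ⟨a, ha, hna⟩ := this
  obtain ⟨i, hi, hni⟩ : ∃ i ≤ p, 1 / 4 < ‖((2 : ℤ) ^ i) • (n • a)‖ := by
    by_contra hcon
    push Not at hcon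
    have := le_of_pow (z := n • a) (m := p) hcon
    linarith
  refine ⟨((2 : ℤ) ^ i) • a, H.zsmul_mem (hS ha) _, ?_, ?_⟩
  · intro q hq
    rw [smul_comm]
    refine (norm_zs _ _).trans ?_
    have h3 : |(((2 : ℤ) ^ i : ℤ) : ℝ)| = 2 ^ i := by push_cast; exact abs_of_pos (by positivity)
    rw [h3]
    have h4 : (2 : ℝ) ^ i ≤ 2 ^ p := pow_le_pow_right₀ (by norm_num) hi
    have h5 := hq a ha
    calc (2 : ℝ) ^ i * ‖q • a‖ ≤ 2 ^ p * (1 / (4 * 2 ^ p)) := by gcongr
      _ = 1 / 4 := by field_simp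
  · rw [smul_comm]
    exact hni

lemma Bs_pow_sub {m : ℕ} (hm : 1 ≤ m) : Bs S (1 / (4 * 2 ^ m)) ⊆ Bs S (1 / (4 * m)) := by
  apply Bs_mono Subset.rfl
  have h := one_div_anti hm (Nat.lt_two_pow_self (n := m)).le
  push_cast at h
  exact h

lemma Bs_pow_mem (m : ℕ) : Bs S (1 / (4 * 2 ^ m)) ∈ @nhds ℤ (unif S) 0 := by
  rw [mem_unif]
  refine ⟨2 ^ m, Nat.one_le_two_pow, ?_⟩
  push_cast
  exact Subset.rfl

lemma lqc_unif : LocallyQuasiConvex (unif S) := by
  intro U hU
  obtain ⟨m, hm, hB⟩ := mem_unif.mp hU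
  refine ⟨Bs S (1 / (4 * 2 ^ m)), Bs_pow_mem m, ?_, (Bs_pow_sub hm).trans hB⟩
  intro n hn
  haveI := unif_group (S := S)
  obtain ⟨y, hy, h1, h2⟩ := exists_sep (H := dual (unif S)) subset_dual_unif m hn
  refine ⟨chi y, ?_, ?_, ?_⟩
  · rw [mem_Chars]
    simpa using hy
  · intro q hq
    rw [mem_Tplus, chi_apply]
    exact h1 q hq
  · rw [mem_Tplus, chi_apply, not_le]
    exact h2

end

/-- suprema of topologies of uniform convergence are locally quasi-convex group topologies -/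
lemma sup_group (C : Set (Set T)) :
    @IsTopologicalAddGroup ℤ (sInf (unif '' C)) _ := by
  apply topologicalAddGroup_sInf
  rintro _ ⟨S, -, rfl⟩
  exact unif_group

lemma dual_mono {t t' : TopologicalSpace ℤ} (h : t ≤ t') (ht : @IsTopologicalAddGroup ℤ t _)
    (ht' : @IsTopologicalAddGroup ℤ t' _) :
    (dual t' : Set T) ⊆ dual t := by
  intro x hx
  exact continuous_le_dom h hx

lemma mem_sup {C : Set (Set T)} {U : Set ℤ} :
    U ∈ @nhds ℤ (sInf (unif '' C)) 0 → ∃ F : Finset (Set T), ↑F ⊆ C ∧ ∃ m : ℕ, 1 ≤ m ∧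
      (⋂ S ∈ F, Bs S (1 / (4 * m))) ⊆ U := by
  classical
  intro hU
  -- the filter of such sets
  let f : Filter ℤ := {
    sets := {U | ∃ F : Finset (Set T), ↑F ⊆ C ∧ ∃ m : ℕ, 1 ≤ m ∧
      (⋂ S ∈ F, Bs S (1 / (4 * m))) ⊆ U}
    univ_sets := ⟨∅, by simp, 1, le_rfl, subset_univ _⟩
    sets_of_superset := by
      rintro x y ⟨F, hF, m, hm, h⟩ hxy
      exact ⟨F, hF, m, hm, h.trans hxy⟩
    inter_sets := by
      rintro x y ⟨F, hF, m, hm, h⟩ ⟨F', hF', m', hm', h'⟩
      refine ⟨F ∪ F', by simp [hF, hF'], max m m', le_trans hm (le_max_left _ _), ?_⟩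
      intro n hn
      simp only [mem_iInter] at hn
      refine ⟨h ?_, h' ?_⟩
      · simp only [mem_iInter]
        intro S hS
        exact Bs_mono Subset.rfl (one_div_anti hm (le_max_left _ _))
          (hn S (Finset.mem_union_left _ hS))
      · simp only [mem_iInter]
        intro S hS
        exact Bs_mono Subset.rfl (one_div_anti hm' (le_max_right _ _))
          (hn S (Finset.mem_union_right _ hS)) }
  have hle : f ≤ @nhds ℤ (sInf (unif '' C)) 0 := by
    rw [nhds_sInf]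
    refine le_iInf₂ ?_
    rintro _ ⟨S, hS, rfl⟩
    intro V hV
    obtain ⟨m, hm, hB⟩ := mem_unif.mp hV
    refine ⟨{S}, by simpa using hS, m, hm, ?_⟩
    intro n hn
    simp only [Finset.mem_singleton, iInter_iInter_eq_left] at hn
    exact hB hn
  exact hle hU

lemma lqc_sup (C : Set (Set T)) : LocallyQuasiConvex (sInf (unif '' C)) := by
  classical
  haveI := sup_group C
  intro U hU
  obtain ⟨F, hF, m, hm, hB⟩ := mem_sup hU
  have hle : ∀ S ∈ F, sInf (unif '' C) ≤ unif S := by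
    intro S hS
    exact sInf_le ⟨S, hF hS, rfl⟩
  refine ⟨⋂ S ∈ F, Bs S (1 / (4 * 2 ^ m)), ?_, ?_, ?_⟩
  · rw [Filter.biInter_finset_mem]
    intro S hS
    exact nhds_mono (hle S hS) (Bs_pow_mem m)
  · intro n hn
    have : ∃ S ∈ F, n ∉ Bs S (1 / (4 * 2 ^ m)) := by
      by_contra hcon
      push Not at hcon
      apply hn
      simp only [mem_iInter]
      exact hcon
    obtain ⟨S, hS, hnS⟩ := this
    have hsub : S ⊆ (dual (sInf (unif '' C)) : Set T) :=
      subset_dual_unif.trans (dual_mono (hle S hS) (sup_group C) unif_group)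
    obtain ⟨y, hy, h1, h2⟩ := exists_sep (H := dual (sInf (unif '' C))) hsub m hnS
    refine ⟨chi y, ?_, ?_, ?_⟩
    · rw [mem_Chars]
      simpa using hy
    · intro q hq
      rw [mem_Tplus, chi_apply]
      simp only [mem_iInter] at hq
      exact h1 q (hq S hS)
    · rw [mem_Tplus, chi_apply, not_le]
      exact h2
  · intro n hn
    apply hB
    simp only [mem_iInter] at hn ⊢
    intro S hS
    exact Bs_pow_sub hm (hn S hS)

end Pool.Agent.Q151.Dy
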